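import Mathlib

/-!
# Recursive sequences with almost palindromic prefixes
-/

set_option autoImplicit false

open Polynomial

namespace Pool.Agent.Pal

/-- The positions `k ≤ n` at which the reversal of the word `a 0, …, a n` differs from `c` times the word. -/
def mis {K : Type*} [Mul K] (a : ℕ → K) (c : K) (n : ℕ) : Set ℕ := {k | k ≤ n ∧ a (n - k) ≠ c * a k}

theorem mis_finite {K : Type*} [Mul K] (a : ℕ → K) (c : K) (n : ℕ) : (mis a c n).Finite :=
  (Set.finite_Iic n).subset fun _ hk => hk.1

/-- A strictly separated subfamily of an infinite set of natural numbers. -/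
theorem exists_sep (B : Set ℕ) (hB : B.Infinite) (r E : ℕ) :
    ∃ s : Finset ℕ, s.card = E + 1 ∧ (∀ m ∈ s, m ∈ B) ∧ ∀ m ∈ s, ∀ m' ∈ s, m < m' → m + r < m' := by
  induction E with
  | zero =>
    obtain ⟨m, hm⟩ := hB.nonempty
    exact ⟨{m}, by simp, by simpa using hm, by simp⟩
  | succ E ih =>
    obtain ⟨s, hc, hs, hsep⟩ := ih
    obtain ⟨m, hm, hlt⟩ := hB.exists_gt (s.sup id + r)
    have hle : ∀ x ∈ s, x + r < m := fun x hx => by
      have := Finset.le_sup (f := id) hx
      simp only [id] at this
      omega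
    have hnot : m ∉ s := fun h => by have := hle m h; omega
    refine ⟨insert m s, by rw [Finset.card_insert_of_notMem hnot, hc], ?_, ?_⟩
    · intro x hx
      rcases Finset.mem_insert.1 hx with rfl | hx
      · exact hm
      · exact hs x hx
    · intro x hx y hy hxy
      rcases Finset.mem_insert.1 hx with h1 | h1 <;> rcases Finset.mem_insert.1 hy with h2 | h2
      · omega
      · have := hle y h2; omega
      · rw [h2]; exact hle x h1
      · exact hsep x h1 y h2 hxy

theorem const_rec {K : Type*} [Field K] [CharZero K] (a : ℕ → K) (r : ℕ) (p : ℕ → K[X])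
    (hp : ∃ i ≤ r, p i ≠ 0)
    (hrec : ∀ k : ℕ, ∑ i ∈ Finset.range (r + 1), (p i).eval (k : K) * a (k + i) = 0)
    (E : ℕ) (S : Set ℕ) (hS : S.Infinite) (hE : ∀ n ∈ S, ∃ c, c ≠ 0 ∧ (mis a c n).ncard ≤ E) :
    ∃ c : ℕ → K, (∃ i ≤ r, c i ≠ 0) ∧
      ∃ M : ℕ, ∀ m ≥ M, ∑ i ∈ Finset.range (r + 1), c i * a (m + r - i) = 0 := by
  classical
  choose! u hu0 hE using hE
  -- the bad windows
  set B : Set ℕ := {m | {n ∈ S | ∀ j ≤ r, m + j ∉ mis a (u n) n}.Finite} with hBdef
  have hB : B.Finite := by
    by_contra hinf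
    obtain ⟨s, hc, hs, hsep⟩ := exists_sep B hinf r E
    -- all large `n ∈ S` have an error in every window
    have hfin : (⋃ m ∈ s, {n ∈ S | ∀ j ≤ r, m + j ∉ mis a (u n) n}).Finite :=
      s.finite_toSet.biUnion fun m hm => hs m hm
    obtain ⟨n, hnS, hn⟩ := (hS.sdiff hfin).nonempty
    have hw : ∀ m ∈ s, ∃ j ≤ r, m + j ∈ mis a (u n) n := by
      intro m hm
      by_contra hcon
      push Not at hcon
      exact hn (Set.mem_biUnion hm ⟨hnS, hcon⟩)
    choose! j hj hjm using hw
    have hinj : Set.InjOn (fun m => m + j m) (s : Set ℕ) := by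
      intro x hx y hy hxy
      simp only at hxy
      rcases lt_trichotomy x y with h | h | h
      · have := hsep x hx y hy h; have := hj x hx; omega
      · exact h
      · have := hsep y hy x hx h; have := hj y hy; omega
    have hsub : (fun m => m + j m) '' (s : Set ℕ) ⊆ mis a (u n) n := by
      rintro _ ⟨m, hm, rfl⟩
      exact hjm m hm
    have h1 := Set.ncard_le_ncard hsub (mis_finite a (u n) n)
    rw [hinj.ncard_image, Set.ncard_coe_finset, hc] at h1
    have := hE n hnS
    omega
  -- for the good windows the recursion holds with all values of the polynomials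
  have hgood : ∀ m ∉ B, ∀ y : K, ∑ i ∈ Finset.range (r + 1), (p i).eval y * a (m + r - i) = 0 := by
    intro m hm y
    have hinf : {n ∈ S | ∀ j ≤ r, m + j ∉ mis a (u n) n}.Infinite := hm
    set Q : K[X] := ∑ i ∈ Finset.range (r + 1), C (a (m + r - i)) * (p i).comp (X - C ((r + m : ℕ) : K))
      with hQ
    have hroot : ∀ n ∈ {n ∈ S | ∀ j ≤ r, m + j ∉ mis a (u n) n}, m + r ≤ n → Q.eval (n : K) = 0 := by
      rintro n ⟨hnS, hn⟩ hmn
      have h := hrec (n - (r + m))
      rw [hQ, eval_finsetSum]
      have hun := hu0 n hnS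
      refine (mul_eq_zero.1 (?_ : u n * _ = 0)).resolve_left hun
      rw [← h, Finset.mul_sum]
      refine Finset.sum_congr rfl fun i hi => ?_
      have hi' : i ≤ r := by simpa [Nat.lt_succ_iff] using hi
      have h1 : a (n - (r + m) + i) = u n * a (m + r - i) := by
        have h2 := hn (r - i) (by omega)
        have h3 : m + (r - i) = m + r - i := by omega
        rw [h3] at h2
        simp only [mis, Set.mem_ofPred_eq, not_and, not_not] at h2
        rw [← h2 (by omega)]
        congr 1
        omega
      rw [h1, eval_mul, eval_C, eval_comp, eval_sub, eval_X, eval_C, Nat.cast_sub (by omega)]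
      ring
    have hQ0 : Q = 0 := by
      refine Polynomial.eq_zero_of_infinite_isRoot Q ?_
      have h1 : ({n ∈ S | ∀ j ≤ r, m + j ∉ mis a (u n) n} \ {n | n < m + r}).Infinite :=
        hinf.sdiff (Set.finite_lt_nat _)
      refine (h1.image (f := fun n : ℕ => (n : K)) (Nat.cast_injective.injOn)).mono ?_
      rintro _ ⟨n, ⟨hn, hn2⟩, rfl⟩
      exact hroot n hn (by simpa using hn2)
    have h2 := congrArg (eval (y + ((r + m : ℕ) : K))) hQ0
    rw [hQ, eval_finsetSum, eval_zero] at h2
    rw [← h2]
    refine Finset.sum_congr rfl fun i _ => ?_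
    rw [eval_mul, eval_C, eval_comp, eval_sub, eval_X, eval_C, add_sub_cancel_right, mul_comm]
  obtain ⟨i, hi, hpi⟩ := hp
  obtain ⟨y, hy⟩ : ∃ y : K, (p i).eval y ≠ 0 := by
    by_contra hcon
    push Not at hcon
    exact hpi (Polynomial.funext fun x => by simpa using hcon x)
  obtain ⟨M, hM⟩ := hB.bddAbove
  refine ⟨fun i => (p i).eval y, ⟨i, hi, hy⟩, M + 1, fun m hm => hgood m (fun h => ?_) y⟩
  have := hM h
  omega

/-- A sequence which satisfies a linear recursion with constant coefficients from some point on. -/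
theorem rational_of_rec {K : Type*} [Field K] (f : PowerSeries K) (r : ℕ) (c : ℕ → K)
    (hc : ∃ i ≤ r, c i ≠ 0) (M : ℕ)
    (h : ∀ m ≥ M, ∑ i ∈ Finset.range (r + 1), c i * PowerSeries.coeff (m + r - i) f = 0) :
    ∃ P Q : K[X], Q ≠ 0 ∧ (Q : PowerSeries K) * f = P := by
  classical
  set Q : K[X] := ∑ i ∈ Finset.range (r + 1), C (c i) * X ^ i with hQ
  have hcoeff : ∀ n, Q.coeff n = if n ≤ r then c n else 0 := by
    intro n
    rw [hQ, finsetSum_coeff]
    simp only [coeff_C_mul, coeff_X_pow, mul_ite, mul_one, mul_zero]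
    rw [Finset.sum_ite_eq]
    simp
  refine ⟨PowerSeries.trunc (M + r) ((Q : PowerSeries K) * f), Q, ?_, ?_⟩
  · obtain ⟨i, hi, hci⟩ := hc
    intro h0
    have := hcoeff i
    rw [h0, coeff_zero, if_pos hi] at this
    exact hci this.symm
  · ext n
    rw [Polynomial.coeff_coe, PowerSeries.coeff_trunc]
    split_ifs with hn
    · rfl
    · push Not at hn
      rw [PowerSeries.coeff_mul, Finset.Nat.sum_antidiagonal_eq_sum_range_succ_mk]
      have h1 : ∑ k ∈ Finset.range n.succ, PowerSeries.coeff k (Q : PowerSeries K) *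
          PowerSeries.coeff (n - k) f = ∑ k ∈ Finset.range (r + 1), c k * PowerSeries.coeff (n - k) f := by
        symm
        refine Finset.sum_subset_zero_on_sdiff ?_ ?_ ?_
        · intro x hx
          simp only [Finset.mem_range] at hx ⊢
          omega
        · intro x hx
          simp only [Finset.mem_sdiff, Finset.mem_range, not_lt] at hx
          rw [Polynomial.coeff_coe, hcoeff, if_neg (by omega), zero_mul]
        · intro x hx
          simp only [Finset.mem_range] at hx
          rw [Polynomial.coeff_coe, hcoeff, if_pos (by omega)]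
      rw [h1]
      have h2 := h (n - r) (by omega)
      rw [← h2]
      refine Finset.sum_congr rfl fun i _ => ?_
      congr 2
      congr 1
      omega

end Pool.Agent.Pal
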