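import Mathlib

/-!
# Algebraic power series in characteristic zero satisfy recursions with polynomial coefficients
-/

set_option autoImplicit false

open Polynomial

noncomputable section

namespace Pool.Agent.Pal

variable {K : Type*} [Field K]

/-- The derivation `X d/dX`. -/
def th (g : PowerSeries K) : PowerSeries K := PowerSeries.X * PowerSeries.derivative K g

theorem coeff_th (g : PowerSeries K) (n : ℕ) :
    PowerSeries.coeff n (th g) = (n : K) * PowerSeries.coeff n g := by
  rw [th]
  cases n with
  | zero => simp
  | succ n =>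
    rw [PowerSeries.coeff_succ_X_mul, PowerSeries.coeff_derivative]
    push_cast
    ring

theorem th_add (g h : PowerSeries K) : th (g + h) = th g + th h := by
  simp only [th, map_add, mul_add]

theorem th_mul (g h : PowerSeries K) : th (g * h) = th g * h + g * th h := by
  simp only [th, Derivation.leibniz, smul_eq_mul]
  ring

theorem th_zero : th (0 : PowerSeries K) = 0 := by simp [th]

theorem th_sum {ι : Type} (s : Finset ι) (g : ι → PowerSeries K) :
    th (∑ i ∈ s, g i) = ∑ i ∈ s, th (g i) := by
  classical
  induction s using Finset.induction_on with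
  | empty => simp [th_zero]
  | insert i s hi ih => rw [Finset.sum_insert hi, Finset.sum_insert hi, th_add, ih]

theorem alg_apply (q : K[X]) : algebraMap K[X] (PowerSeries K) q = (q : PowerSeries K) := rfl

theorem th_alg (q : K[X]) :
    th (algebraMap K[X] (PowerSeries K) q) = algebraMap K[X] (PowerSeries K) (X * derivative q) := by
  ext n
  rw [coeff_th, alg_apply, alg_apply, Polynomial.coeff_coe, Polynomial.coeff_coe]
  cases n with
  | zero => simp
  | succ n =>
    rw [coeff_X_mul, coeff_derivative]
    push_cast
    ring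

theorem th_pow (g : PowerSeries K) (n : ℕ) : th (g ^ n) = n * g ^ (n - 1) * th g := by
  induction n with
  | zero =>
    have : th (1 : PowerSeries K) = 0 := by
      have := th_alg (1 : K[X])
      simpa using this
    simp [this]
  | succ n ih =>
    rw [pow_succ, th_mul, ih]
    cases n with
    | zero => simp
    | succ n =>
      simp only [Nat.add_sub_cancel]
      push_cast
      ring

theorem alg_inj : Function.Injective (algebraMap K[X] (PowerSeries K)) := Polynomial.coe_injective K

/-- The derivation of a value of a polynomial. -/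
theorem th_aeval (f : PowerSeries K) (P : K[X][X]) :
    ∃ S : K[X][X], th (aeval f P) = aeval f S + aeval f (derivative P) * th f := by
  induction P using Polynomial.induction_on' with
  | add P Q hP hQ =>
    obtain ⟨S, hS⟩ := hP
    obtain ⟨T, hT⟩ := hQ
    refine ⟨S + T, ?_⟩
    rw [map_add, th_add, hS, hT, map_add, derivative_add, map_add]
    ring
  | monomial n a =>
    refine ⟨monomial n (X * derivative a), ?_⟩
    rw [aeval_monomial, th_mul, th_alg, th_pow, aeval_monomial, derivative_monomial, aeval_monomial]
    simp only [map_mul, map_natCast]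
    ring

variable [CharZero K]

/-- A denominator of the derivative of an algebraic power series. -/
theorem exists_den (f : PowerSeries K) (hf : IsAlgebraic K[X] f) :
    ∃ e : K[X], e ≠ 0 ∧ algebraMap K[X] (PowerSeries K) e * th f ∈ Algebra.adjoin K[X] {f} := by
  classical
  -- a relation of minimal degree
  obtain ⟨P0, hP0, hP0f⟩ := hf
  have hex : ∃ d, ∃ P : K[X][X], P ≠ 0 ∧ aeval f P = 0 ∧ P.natDegree = d := ⟨_, P0, hP0, hP0f, rfl⟩
  obtain ⟨P, hP, hPf, hPd⟩ := Nat.find_spec hex
  have hmin : ∀ Q : K[X][X], Q ≠ 0 → aeval f Q = 0 → P.natDegree ≤ Q.natDegree := by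
    intro Q hQ hQf
    rw [hPd]
    exact Nat.find_min' hex ⟨Q, hQ, hQf, rfl⟩
  have hdeg : P.natDegree ≠ 0 := by
    intro h0
    obtain ⟨c, hc⟩ := natDegree_eq_zero.1 h0
    rw [← hc, aeval_C] at hPf
    have := alg_inj (hPf.trans (map_zero _).symm)
    apply hP
    rw [← hc, this, C_0]
  have hder : derivative P ≠ 0 := by
    intro h0
    exact hdeg (derivative_eq_zero.1 h0)
  have hb : aeval f (derivative P) ≠ 0 := by
    intro h0
    have h1 := hmin _ hder h0
    have h2 := natDegree_derivative_lt hdeg
    omega
  have halg : IsAlgebraic K[X] (aeval f (derivative P)) :=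
    Algebra.isAlgebraic_adjoin_singleton_iff.mpr ⟨P, hP, hPf⟩ _ (aeval_mem_adjoin_singleton _ _)
  obtain ⟨t, ht, r, hr, hrt⟩ := halg.exists_nonzero_eq_adjoin_mul (mem_nonZeroDivisors_of_ne_zero hb)
  obtain ⟨S, hS⟩ := th_aeval f P
  have ht' : t ∈ Algebra.adjoin K[X] {f} := by
    refine Algebra.adjoin_le ?_ ht
    rw [Set.singleton_subset_iff]
    exact aeval_mem_adjoin_singleton _ _
  refine ⟨r, hr, ?_⟩
  have h1 : algebraMap K[X] (PowerSeries K) r * th f = -(t * aeval f S) := by
    rw [hPf, th_zero] at hS
    rw [← hrt]
    linear_combination (-t) * hS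
  rw [h1]
  exact neg_mem (mul_mem ht' (aeval_mem_adjoin_singleton _ _))

omit [CharZero K] in
theorem th_mem {f : PowerSeries K} {e : K[X]}
    (he : algebraMap K[X] (PowerSeries K) e * th f ∈ Algebra.adjoin K[X] {f}) {b : PowerSeries K}
    (hb : b ∈ Algebra.adjoin K[X] {f}) :
    algebraMap K[X] (PowerSeries K) e * th b ∈ Algebra.adjoin K[X] {f} := by
  induction hb using Algebra.adjoin_induction with
  | mem x hx =>
    rw [Set.mem_singleton_iff.1 hx]
    exact he
  | algebraMap q =>
    rw [th_alg]
    exact mul_mem (Subalgebra.algebraMap_mem _ _) (Subalgebra.algebraMap_mem _ _)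
  | add x y _ _ hx hy =>
    rw [th_add, mul_add]
    exact add_mem hx hy
  | mul x y hx0 hy0 hx hy =>
    rw [th_mul]
    have : algebraMap K[X] (PowerSeries K) e * (th x * y + x * th y) =
        (algebraMap K[X] (PowerSeries K) e * th x) * y + x * (algebraMap K[X] (PowerSeries K) e * th y) := by
      ring
    rw [this]
    exact add_mem (mul_mem hx hy0) (mul_mem hx0 hy)

theorem iter_mem (f : PowerSeries K) (hf : IsAlgebraic K[X] f) (j : ℕ) :
    ∃ e : K[X], e ≠ 0 ∧ algebraMap K[X] (PowerSeries K) e * th^[j] f ∈ Algebra.adjoin K[X] {f} := by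
  obtain ⟨e, he, hef⟩ := exists_den f hf
  induction j with
  | zero => exact ⟨1, one_ne_zero, by simp⟩
  | succ j ih =>
    obtain ⟨E, hE, hEf⟩ := ih
    refine ⟨E * E * e, mul_ne_zero (mul_ne_zero hE hE) he, ?_⟩
    have h1 := th_mem hef hEf
    rw [th_mul, th_alg] at h1
    rw [Function.iterate_succ_apply']
    have h2 : algebraMap K[X] (PowerSeries K) (E * E * e) * th (th^[j] f) =
        algebraMap K[X] (PowerSeries K) E * (algebraMap K[X] (PowerSeries K) e *
          (algebraMap K[X] (PowerSeries K) (X * derivative E) * th^[j] f +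
            algebraMap K[X] (PowerSeries K) E * th (th^[j] f))) -
        algebraMap K[X] (PowerSeries K) (e * (X * derivative E)) *
          (algebraMap K[X] (PowerSeries K) E * th^[j] f) := by
      simp only [map_mul]
      ring
    rw [h2]
    exact sub_mem (mul_mem (Subalgebra.algebraMap_mem _ _) h1)
      (mul_mem (Subalgebra.algebraMap_mem _ _) hEf)

/-- The powers of an algebraic element are, up to denominators, combinations of the first ones. -/
theorem pow_mem {A R : Type*} [CommRing A] [IsDomain A] [CommRing R] [Algebra A R] (f : R)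
    (P : A[X]) (hP : P ≠ 0) (hPf : aeval f P = 0) (i : ℕ) :
    ∃ e : A, e ≠ 0 ∧ e • f ^ i ∈ Submodule.span A (Set.range fun j : Fin P.natDegree => f ^ (j : ℕ)) := by
  induction i using Nat.strong_induction_on with
  | _ i ih =>
    rcases lt_or_ge i P.natDegree with hi | hi
    · exact ⟨1, one_ne_zero, by
        rw [one_smul]
        exact Submodule.subset_span ⟨⟨i, hi⟩, rfl⟩⟩
    · -- `lc • f ^ i` is a combination of lower powers
      set d := P.natDegree with hd
      choose! e he hem using ih
      have hrel : P.leadingCoeff • f ^ i = -∑ j ∈ Finset.range d, P.coeff j • f ^ (i - d + j) := by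
        have h1 : ∑ j ∈ Finset.range (d + 1), P.coeff j • f ^ j = 0 := by
          rw [← hPf, aeval_eq_sum_range]
        rw [Finset.sum_range_succ] at h1
        have h2 : f ^ i = f ^ (i - d) * f ^ d := by
          rw [← pow_add]
          congr 1
          omega
        have h3 : ∑ j ∈ Finset.range d, P.coeff j • f ^ (i - d + j) =
            f ^ (i - d) * ∑ j ∈ Finset.range d, P.coeff j • f ^ j := by
          rw [Finset.mul_sum]
          refine Finset.sum_congr rfl fun j _ => ?_
          rw [mul_smul_comm, pow_add]
        rw [h3, h2, leadingCoeff, ← mul_smul_comm, eq_neg_of_add_eq_zero_right h1, mul_neg]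
      refine ⟨(∏ j ∈ Finset.range d, e (i - d + j)) * P.leadingCoeff,
        mul_ne_zero (Finset.prod_ne_zero_iff.2 fun j hj => he _ ?_) (leadingCoeff_ne_zero.2 hP), ?_⟩
      · have := Finset.mem_range.1 hj
        omega
      · rw [mul_smul, hrel, smul_neg, Finset.smul_sum]
        refine neg_mem (Submodule.sum_mem _ fun j hj => ?_)
        have hj' := Finset.mem_range.1 hj
        have h4 : (∏ j ∈ Finset.range d, e (i - d + j)) • P.coeff j • f ^ (i - d + j) =
            ((∏ j ∈ (Finset.range d).erase j, e (i - d + j)) * P.coeff j) •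
              (e (i - d + j) • f ^ (i - d + j)) := by
          rw [smul_smul, smul_smul, ← Finset.mul_prod_erase _ _ hj]
          congr 1
          ring
        rw [h4]
        exact Submodule.smul_mem _ _ (hem _ (by omega))

/-- Every element of the algebra generated by an algebraic element is, up to a denominator, a combination of
the first powers. -/
theorem adj_mem {A R : Type*} [CommRing A] [IsDomain A] [CommRing R] [Algebra A R] (f : R)
    (P : A[X]) (hP : P ≠ 0) (hPf : aeval f P = 0) (b : R) (hb : b ∈ Algebra.adjoin A {f}) :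
    ∃ e : A, e ≠ 0 ∧ e • b ∈ Submodule.span A (Set.range fun j : Fin P.natDegree => f ^ (j : ℕ)) := by
  obtain ⟨Q, rfl⟩ := (Algebra.adjoin_singleton_eq_range_aeval A f ▸ hb : b ∈ (aeval f).range)
  choose e he hem using pow_mem f P hP hPf
  refine ⟨∏ j ∈ Finset.range (Q.natDegree + 1), e j, Finset.prod_ne_zero_iff.2 fun j _ => he j, ?_⟩
  change _ • aeval f Q ∈ _
  rw [aeval_eq_sum_range, Finset.smul_sum]
  refine Submodule.sum_mem _ fun j hj => ?_
  have h4 : (∏ j ∈ Finset.range (Q.natDegree + 1), e j) • Q.coeff j • f ^ j =
      ((∏ j ∈ (Finset.range (Q.natDegree + 1)).erase j, e j) * Q.coeff j) • (e j • f ^ j) := by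
    rw [smul_smul, smul_smul, ← Finset.mul_prod_erase _ _ hj]
    congr 1
    ring
  rw [h4]
  exact Submodule.smul_mem _ _ (hem _)

/-- A linear differential equation for an algebraic power series. -/
theorem exists_ode (f : PowerSeries K) (P : K[X][X]) (hP : P ≠ 0) (hPf : aeval f P = 0) :
    ∃ (d : ℕ) (g : Fin d → K[X]), d = P.natDegree + 1 ∧ (∃ j, g j ≠ 0) ∧
      ∑ j : Fin d, algebraMap K[X] (PowerSeries K) (g j) * th^[j] f = 0 := by
  classical
  choose e he hem using iter_mem f ⟨P, hP, hPf⟩
  choose e' he' hem' using fun j => adj_mem f P hP hPf _ (hem j)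
  set d := P.natDegree with hd
  let v : Fin (d + 1) → PowerSeries K := fun j => (e' j * e j) • th^[j] f
  have hv : Set.range v ⊆ Submodule.span K[X] (Set.range fun j : Fin d => f ^ (j : ℕ)) := by
    rintro _ ⟨j, rfl⟩
    have := hem' j
    simp only [v, mul_smul]
    rw [Algebra.smul_def (e j)]
    exact this
  have hdep : ¬ LinearIndependent K[X] v := by
    intro hli
    have := linearIndependent_le_span' v hli (Set.range fun j : Fin d => f ^ (j : ℕ)) hv
    have h2 : Fintype.card (Set.range fun j : Fin d => f ^ (j : ℕ)) ≤ d := by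
      have := Fintype.card_range_le (fun j : Fin d => f ^ (j : ℕ))
      simpa using this
    simp only [Cardinal.mk_fintype, Fintype.card_fin] at this
    have h3 : d + 1 ≤ Fintype.card (Set.range fun j : Fin d => f ^ (j : ℕ)) := by exact_mod_cast this
    omega
  rw [Fintype.not_linearIndependent_iff] at hdep
  obtain ⟨g, hg, j, hj⟩ := hdep
  refine ⟨d + 1, fun j => g j * (e' j * e j), rfl, ⟨j, mul_ne_zero hj (mul_ne_zero (he' _) (he _))⟩, ?_⟩
  rw [← hg]
  refine Finset.sum_congr rfl fun j _ => ?_
  simp only [v, Algebra.smul_def, map_mul]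
  ring

omit [CharZero K] in
theorem coeff_iter (f : PowerSeries K) (j n : ℕ) :
    PowerSeries.coeff n (th^[j] f) = (n : K) ^ j * PowerSeries.coeff n f := by
  induction j with
  | zero => simp
  | succ j ih => rw [Function.iterate_succ_apply', coeff_th, ih, pow_succ]; ring

/-- The coefficients of an algebraic power series satisfy a linear recursion with polynomial coefficients. -/
theorem exists_rec (f : PowerSeries K) (P : K[X][X]) (hP : P ≠ 0) (hPf : aeval f P = 0) :
    ∃ (r : ℕ) (p : ℕ → K[X]), (∃ i ≤ r, p i ≠ 0) ∧ (∀ i, (p i).natDegree ≤ P.natDegree) ∧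
      ∀ k : ℕ, ∑ i ∈ Finset.range (r + 1), (p i).eval (k : K) * PowerSeries.coeff (k + i) f = 0 := by
  classical
  obtain ⟨d, g, hd, ⟨j0, hj0⟩, hg⟩ := exists_ode f P hP hPf
  set r := Finset.univ.sup fun j => (g j).natDegree with hr
  have hle : ∀ j, (g j).natDegree ≤ r := fun j => Finset.le_sup (f := fun j => (g j).natDegree) (Finset.mem_univ j)
  set p : ℕ → K[X] := fun i => ∑ j : Fin d, C ((g j).coeff (r - i)) * (X + C (i : K)) ^ (j : ℕ) with hp
  refine ⟨r, p, ?_, ?_, ?_⟩
  · -- not all are zero
    have hlc : (g j0).coeff (g j0).natDegree ≠ 0 := by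
      rw [coeff_natDegree]
      exact leadingCoeff_ne_zero.2 hj0
    refine ⟨r - (g j0).natDegree, Nat.sub_le _ _, fun h0 => ?_⟩
    have h1 : r - (r - (g j0).natDegree) = (g j0).natDegree := by
      have := hle j0
      omega
    simp only [hp, h1] at h0
    have h2 : (∑ j : Fin d, C ((g j).coeff (g j0).natDegree) * X ^ (j : ℕ) : K[X]) = 0 := by
      have := congrArg (compRingHom (X - C ((r - (g j0).natDegree : ℕ) : K))) h0
      rw [map_sum, map_zero] at this
      simp only [coe_compRingHom_apply, mul_comp, C_comp, pow_comp, add_comp, X_comp,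
        sub_add_cancel] at this
      exact this
    have h3 := congrArg (fun q : K[X] => q.coeff (j0 : ℕ)) h2
    simp only [finsetSum_coeff, coeff_C_mul, coeff_X_pow, mul_ite, mul_one, mul_zero, coeff_zero] at h3
    rw [Finset.sum_eq_single j0] at h3
    · rw [if_pos rfl] at h3
      exact hlc h3
    · intro b _ hb
      rw [if_neg]
      intro h
      exact hb (Fin.ext h.symm)
    · simp
  · intro i
    refine natDegree_sum_le_of_forall_le _ _ fun j _ => ?_
    refine (natDegree_C_mul_le _ _).trans ((natDegree_pow_le).trans ?_)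
    rw [natDegree_X_add_C, mul_one]
    have := j.2
    omega
  · intro k
    have h1 := congrArg (PowerSeries.coeff (k + r)) hg
    rw [map_sum, map_zero] at h1
    have h2 : ∀ j : Fin d, PowerSeries.coeff (k + r) (algebraMap K[X] (PowerSeries K) (g j) * th^[j] f) =
        ∑ i ∈ Finset.range (r + 1), (g j).coeff (r - i) * ((k + i : ℕ) : K) ^ (j : ℕ) *
          PowerSeries.coeff (k + i) f := by
      intro j
      rw [PowerSeries.coeff_mul, Finset.Nat.sum_antidiagonal_eq_sum_range_succ_mk]
      simp only [alg_apply, Polynomial.coeff_coe, coeff_iter]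
      rw [← Finset.sum_range_reflect (fun i => (g j).coeff (r - i) * ((k + i : ℕ) : K) ^ (j : ℕ) *
          PowerSeries.coeff (k + i) f)]
      symm
      refine Finset.sum_subset_zero_on_sdiff ?_ ?_ ?_
      · intro x hx
        simp only [Finset.mem_range] at hx ⊢
        omega
      · intro x hx
        simp only [Finset.mem_sdiff, Finset.mem_range, not_lt] at hx
        rw [coeff_eq_zero_of_natDegree_lt (by have := hle j; omega), zero_mul]
      · intro x hx
        simp only [Finset.mem_range] at hx
        have h3 : r - (r + 1 - 1 - x) = x := by omega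
        have h4 : k + (r + 1 - 1 - x) = k + r - x := by omega
        rw [h3, h4]
        ring
    rw [Finset.sum_congr rfl fun j _ => h2 j, Finset.sum_comm] at h1
    rw [← h1]
    refine Finset.sum_congr rfl fun i _ => ?_
    simp only [hp, eval_finsetSum, eval_mul, eval_C, eval_pow, eval_add, eval_X]
    rw [Finset.sum_mul]
    refine Finset.sum_congr rfl fun j _ => ?_
    push_cast
    ring

end Pool.Agent.Pal
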