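import Mathlib

/-!
# An algebraic irrational power series in characteristic `p` with infinitely many palindromic prefixes
-/

set_option autoImplicit false

open Polynomial

noncomputable section

namespace Pool.Agent.Pal

/-- The polynomial `(1 + X ^ s) ^ e` is palindromic. -/
theorem pal_pow {K : Type*} [Field K] (s e k : ℕ) (hs : 0 < s) (hk : k ≤ s * e) :
    ((1 + X ^ s : K[X]) ^ e).coeff (s * e - k) = ((1 + X ^ s : K[X]) ^ e).coeff k := by
  have h1 : (1 + X ^ s : K[X]) ^ e = expand K s ((1 + X) ^ e) := by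
    rw [map_pow, map_add, map_one, expand_X]
  rw [h1, coeff_expand hs, coeff_expand hs]
  have h2 : s ∣ s * e - k ↔ s ∣ k := by
    constructor
    · intro h
      have := Nat.dvd_sub (Dvd.intro e rfl : s ∣ s * e) h
      rwa [Nat.sub_sub_self hk] at this
    · intro h
      exact Nat.dvd_sub (Dvd.intro e rfl) h
  by_cases h : s ∣ k
  · rw [if_pos (h2.2 h), if_pos h]
    obtain ⟨j, rfl⟩ := h
    have hj : j ≤ e := Nat.le_of_mul_le_mul_left hk hs
    rw [← Nat.mul_sub, Nat.mul_div_cancel_left _ hs, Nat.mul_div_cancel_left _ hs, coeff_one_add_X_pow,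
      coeff_one_add_X_pow, Nat.choose_symm hj]
  · rw [if_neg (fun h' => h (h2.1 h')), if_neg h]

variable {K : Type*} [Field K] (p : ℕ) [Fact p.Prime] [CharP K p]

/-- The exponents `1 + q + … + q ^ (m - 1)`. -/
def ex (q m : ℕ) : ℕ := ∑ i ∈ Finset.range m, q ^ i

theorem ex_mul (q m : ℕ) (hq : 1 ≤ q) : (q - 1) * ex q m + 1 = q ^ m := by
  induction m with
  | zero => simp [ex]
  | succ m ih =>
    rw [ex, Finset.sum_range_succ, ← ex, mul_add, add_right_comm, ih, pow_succ]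
    obtain ⟨t, rfl⟩ := Nat.exists_eq_add_of_le hq
    simp only [Nat.add_sub_cancel_left]
    ring

/-- The polynomials which converge to the series. -/
def G (K : Type*) [Field K] (q m : ℕ) : K[X] := (1 + X ^ (q - 1)) ^ ex q m

theorem frob (m : ℕ) : (1 + X ^ (p ^ 2 - 1) : K[X]) ^ ((p ^ 2) ^ m) = 1 + X ^ ((p ^ 2 - 1) * (p ^ 2) ^ m) := by
  haveI : CharP K[X] p := inferInstance
  rw [← pow_mul, add_pow_char_pow, one_pow, ← pow_mul]

theorem G_succ (m : ℕ) : G K (p ^ 2) (m + 1) = G K (p ^ 2) m * (1 + X ^ ((p ^ 2 - 1) * (p ^ 2) ^ m)) := by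
  rw [G, ex, Finset.sum_range_succ, ← ex, pow_add, frob, G]

theorem two_le : 4 ≤ p ^ 2 := by
  have := (Fact.out : p.Prime).two_le
  nlinarith

theorem G_coeff_succ (m n : ℕ) (hn : n < (p ^ 2) ^ m) :
    (G K (p ^ 2) (m + 1)).coeff n = (G K (p ^ 2) m).coeff n := by
  rw [G_succ, mul_add, mul_one, coeff_add, coeff_mul_X_pow', if_neg, add_zero]
  have h4 := two_le p
  have : 1 * (p ^ 2) ^ m ≤ (p ^ 2 - 1) * (p ^ 2) ^ m := Nat.mul_le_mul_right _ (by omega)
  omega

theorem G_coeff_le (m m' n : ℕ) (h : m ≤ m') (hn : n < (p ^ 2) ^ m) :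
    (G K (p ^ 2) m').coeff n = (G K (p ^ 2) m).coeff n := by
  induction m', h using Nat.le_induction with
  | base => rfl
  | succ m' hm ih =>
    rw [G_coeff_succ p, ih]
    exact lt_of_lt_of_le hn (Nat.pow_le_pow_right (by have := two_le p; omega) hm)

/-- The series `(1 + X ^ (q - 1)) ^ (-1 / (q - 1))`, `q = p ^ 2`. -/
def ser (K : Type*) [Field K] (p : ℕ) : PowerSeries K := PowerSeries.mk fun n => (G K (p ^ 2) n).coeff n

theorem ser_coeff (m n : ℕ) (hn : n < (p ^ 2) ^ m) :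
    PowerSeries.coeff n (ser K p) = (G K (p ^ 2) m).coeff n := by
  have h4 := two_le p
  have hn' : n < (p ^ 2) ^ n := Nat.lt_pow_self (by omega)
  rw [ser, PowerSeries.coeff_mk]
  rcases le_total m n with h | h
  · exact G_coeff_le p m n n h hn
  · exact (G_coeff_le p n m n h hn').symm

theorem ser_pow : (ser K p) ^ (p ^ 2 - 1) * ((1 + X ^ (p ^ 2 - 1) : K[X]) : PowerSeries K) = 1 := by
  have h4 := two_le p
  have hkey : ∀ m, (PowerSeries.X : PowerSeries K) ^ ((p ^ 2) ^ m) ∣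
      (ser K p) ^ (p ^ 2 - 1) * ((1 + X ^ (p ^ 2 - 1) : K[X]) : PowerSeries K) - 1 := by
    intro m
    have h1 : (PowerSeries.X : PowerSeries K) ^ ((p ^ 2) ^ m) ∣ ser K p - (G K (p ^ 2) m : PowerSeries K) := by
      rw [PowerSeries.X_pow_dvd_iff]
      intro n hn
      rw [map_sub, ser_coeff p m n hn, Polynomial.coeff_coe, sub_self]
    have h2 := h1.trans (sub_dvd_pow_sub_pow (ser K p) (G K (p ^ 2) m : PowerSeries K) (p ^ 2 - 1))
    have h3 : (G K (p ^ 2) m) ^ (p ^ 2 - 1) * (1 + X ^ (p ^ 2 - 1) : K[X]) =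
        1 + X ^ ((p ^ 2 - 1) * (p ^ 2) ^ m) := by
      rw [← frob p m, G, ← pow_mul, ← pow_succ, mul_comm (ex _ _), ex_mul _ _ (by omega)]
    have h3' := congrArg (fun P : K[X] => (P : PowerSeries K)) h3
    simp only [Polynomial.coe_mul, Polynomial.coe_pow] at h3'
    have h5 : ((1 + X ^ ((p ^ 2 - 1) * (p ^ 2) ^ m) : K[X]) : PowerSeries K) =
        1 + PowerSeries.X ^ ((p ^ 2 - 1) * (p ^ 2) ^ m) := by
      rw [Polynomial.coe_add, Polynomial.coe_one, Polynomial.coe_pow, Polynomial.coe_X]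
    rw [h5] at h3'
    have h6 : (ser K p) ^ (p ^ 2 - 1) * ((1 + X ^ (p ^ 2 - 1) : K[X]) : PowerSeries K) - 1 =
        ((ser K p) ^ (p ^ 2 - 1) - (G K (p ^ 2) m : PowerSeries K) ^ (p ^ 2 - 1)) *
          ((1 + X ^ (p ^ 2 - 1) : K[X]) : PowerSeries K) +
        PowerSeries.X ^ ((p ^ 2 - 1) * (p ^ 2) ^ m) := by
      linear_combination h3'
    rw [h6]
    refine dvd_add (h2.mul_right _) (pow_dvd_pow _ ?_)
    calc (p ^ 2) ^ m = 1 * (p ^ 2) ^ m := (one_mul _).symm
      _ ≤ (p ^ 2 - 1) * (p ^ 2) ^ m := Nat.mul_le_mul_right _ (by omega)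
  rw [← sub_eq_zero]
  ext n
  rw [map_zero]
  exact PowerSeries.X_pow_dvd_iff.1 (hkey n) n (Nat.lt_pow_self (by omega))

theorem ser_algebraic : IsAlgebraic K[X] (ser K p) := by
  have h4 := two_le p
  refine ⟨C (1 + X ^ (p ^ 2 - 1)) * X ^ (p ^ 2 - 1) - 1, ?_, ?_⟩
  · intro h
    have h1 := congrArg (fun P : K[X][X] => P.coeff 0) h
    simp only [coeff_sub, coeff_C_mul, coeff_X_pow, coeff_one_zero, coeff_zero] at h1
    rw [if_neg (by omega)] at h1
    simp at h1
  · rw [map_sub, map_mul, aeval_C, map_pow, aeval_X, map_one, sub_eq_zero, mul_comm]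
    exact ser_pow p

theorem ser_irrational (P Q : K[X]) (hQ : Q ≠ 0) (h : (Q : PowerSeries K) * ser K p = P) : False := by
  have h4 := two_le p
  set n := p ^ 2 - 1 with hn
  have h1 : P ^ n * (1 + X ^ n) = Q ^ n := by
    apply Polynomial.coe_injective K
    have h2 := ser_pow (K := K) p
    rw [Polynomial.coe_mul, Polynomial.coe_pow, Polynomial.coe_pow, ← h, mul_pow, mul_assoc, h2, mul_one]
  have h2 : P ∣ Q :=
    (UniqueFactorizationMonoid.pow_dvd_pow_iff_dvd (by omega : n ≠ 0)).1 ⟨_, h1.symm⟩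
  obtain ⟨R, rfl⟩ := h2
  have hP : P ≠ 0 := left_ne_zero_of_mul hQ
  rw [mul_pow] at h1
  have h3 : (1 + X ^ n : K[X]) = R ^ n := mul_left_cancel₀ (pow_ne_zero _ hP) h1
  have hsep : (X ^ n - C (-1 : K)).Separable := by
    refine separable_X_pow_sub_C _ ?_ (neg_ne_zero.2 one_ne_zero)
    have : ((n : ℕ) : K) = -1 := by
      rw [hn, Nat.cast_sub (by omega), Nat.cast_pow, CharP.cast_eq_zero, Nat.cast_one]
      ring
    rw [this]
    exact neg_ne_zero.2 one_ne_zero
  have hsq : Squarefree (1 + X ^ n : K[X]) := by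
    have := hsep.squarefree
    rwa [C_neg, C_1, sub_neg_eq_add, add_comm] at this
  have hu : IsUnit R := by
    refine hsq R ?_
    rw [h3, ← pow_two]
    exact pow_dvd_pow _ (by omega)
  have hu2 : IsUnit (1 + X ^ n : K[X]) := by
    rw [h3]
    exact hu.pow _
  have h5 := natDegree_eq_zero_of_isUnit hu2
  have h6 : (1 + X ^ n : K[X]).natDegree = n := by
    rw [add_comm]
    have := natDegree_X_pow_add_C (n := n) (r := (1 : K))
    rwa [C_1] at this
  omega

theorem ser_pal (m k : ℕ) (hk : k ≤ (p ^ 2) ^ m - 1) :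
    PowerSeries.coeff ((p ^ 2) ^ m - 1 - k) (ser K p) = PowerSeries.coeff k (ser K p) := by
  have h4 := two_le p
  have hpos : 0 < (p ^ 2) ^ m := pow_pos (by omega) _
  rw [ser_coeff p m _ (by omega), ser_coeff p m k (by omega), G]
  have h1 := ex_mul (p ^ 2) m (by omega)
  have h2 : (p ^ 2) ^ m - 1 = (p ^ 2 - 1) * ex (p ^ 2) m := by omega
  rw [h2] at hk ⊢
  exact pal_pow _ _ _ (by omega) hk

end Pool.Agent.Pal
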