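import Pool.Agent.Pal.A1
import Pool.Agent.Pal.A2

/-!
# Long words of the coefficients of an algebraic power series do not recur
-/

set_option autoImplicit false

open Polynomial

noncomputable section

namespace Pool.Agent.Pal

/-- A polynomial of small degree with many roots among the natural numbers. -/
theorem poly_zero {K : Type*} [Field K] [CharZero K] (Q : K[X]) (D : ℕ) (hQ : Q.natDegree ≤ D)
    (T : Finset ℕ) (hT : D < T.card) (h : ∀ n ∈ T, Q.eval (n : K) = 0) : Q = 0 := by
  classical
  by_contra h0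
  have h1 : (T.image fun n : ℕ => (n : K)).card = T.card :=
    Finset.card_image_of_injective _ Nat.cast_injective
  have h2 := Polynomial.card_le_degree_of_subset_roots (p := Q) (Z := T.image fun n : ℕ => (n : K)) (by
    intro x hx
    rw [Finset.mem_val] at hx
    obtain ⟨n, hn, rfl⟩ := Finset.mem_image.1 hx
    exact (mem_roots h0).2 (h n hn))
  omega

/-- Few bad positions leave a clean block. -/
theorem exists_block (Bd : Finset ℕ) (M1 W q : ℕ) (h : Bd.card < q) :
    ∃ j < q, ∀ x ∈ Bd, ¬ (M1 + j * W ≤ x ∧ x < M1 + (j + 1) * W) := by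
  classical
  by_contra hcon
  push Not at hcon
  choose! x hx hx1 hx2 using hcon
  have hinj : Set.InjOn x (Finset.range q : Set ℕ) := by
    intro i hi j hj hij
    have hi' : i < q := by simpa using hi
    have hj' : j < q := by simpa using hj
    have h1 := hx1 i hi'
    have h2 := hx2 i hi'
    have h3 := hx1 j hj'
    have h4 := hx2 j hj'
    rw [hij] at h1 h2
    rcases lt_trichotomy i j with h | h | h
    · have : (i + 1) * W ≤ j * W := Nat.mul_le_mul_right _ h
      omega
    · exact h
    · have : (j + 1) * W ≤ i * W := Nat.mul_le_mul_right _ h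
      omega
  have h1 : ((Finset.range q).image x).card = q := by
    rw [Finset.card_image_of_injOn hinj, Finset.card_range]
  have h2 : (Finset.range q).image x ⊆ Bd := by
    intro y hy
    obtain ⟨j, hj, rfl⟩ := Finset.mem_image.1 hy
    exact hx j (Finset.mem_range.1 hj)
  have := Finset.card_le_card h2
  omega

/-- The positions `k ≤ N` at which the word `a n, a (n - 1), …` is different from `c` times the word
`a s, a (s + 1), …`. -/
def revMis {K : Type*} [Mul K] (a : ℕ → K) (s N n : ℕ) (c : K) : Set ℕ :=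
  {k | k ≤ N ∧ a (n - k) ≠ c * a (s + k)}

/-- The positions `k ≤ N` at which the word `a n, a (n + 1), …` is different from `c` times the word
`a s, a (s + 1), …`. -/
def dirMis {K : Type*} [Mul K] (a : ℕ → K) (s N n : ℕ) (c : K) : Set ℕ :=
  {k | k ≤ N ∧ a (n + k) ≠ c * a (s + k)}

theorem revMis_finite {K : Type*} [Mul K] (a : ℕ → K) (s N n : ℕ) (c : K) : (revMis a s N n c).Finite :=
  (Set.finite_Iic N).subset fun _ hk => hk.1

theorem dirMis_finite {K : Type*} [Mul K] (a : ℕ → K) (s N n : ℕ) (c : K) : (dirMis a s N n c).Finite :=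
  (Set.finite_Iic N).subset fun _ hk => hk.1

section

variable {K : Type*} [Field K] [CharZero K] (a : ℕ → K) (r : ℕ) (p : ℕ → K[X]) (D : ℕ)
    (hD : ∀ i, (p i).natDegree ≤ D)
    (hrec : ∀ k : ℕ, ∑ i ∈ Finset.range (r + 1), (p i).eval (k : K) * a (k + i) = 0)

include hD hrec

/-- Reversed words. -/
theorem rev_window (s N : ℕ) (T : Finset ℕ) (hT : D < T.card) (hN : ∀ n ∈ T, N ≤ n) (u : ℕ → K)
    (hu : ∀ n ∈ T, u n ≠ 0) (m : ℕ) (hm : m + r ≤ N)
    (hgood : ∀ n ∈ T, ∀ j ≤ r, m + j ∉ revMis a s N n (u n)) (y : K) :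
    ∑ i ∈ Finset.range (r + 1), (p i).eval y * a (s + m + (r - i)) = 0 := by
  classical
  set Q : K[X] := ∑ i ∈ Finset.range (r + 1), C (a (s + m + (r - i))) *
    (p i).comp (X - C ((r + m : ℕ) : K)) with hQ
  have hdeg : Q.natDegree ≤ D := by
    refine natDegree_sum_le_of_forall_le _ _ fun i _ => ?_
    refine (natDegree_C_mul_le _ _).trans (natDegree_comp_le.trans ?_)
    rw [natDegree_X_sub_C, mul_one]
    exact hD i
  have hroot : ∀ n ∈ T, Q.eval (n : K) = 0 := by
    intro n hn
    have hNn := hN n hn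
    have h := hrec (n - (r + m))
    refine (mul_eq_zero.1 (?_ : u n * _ = 0)).resolve_left (hu n hn)
    rw [hQ, eval_finsetSum, ← h, Finset.mul_sum]
    refine Finset.sum_congr rfl fun i hi => ?_
    have hi' : i < r + 1 := by simpa using hi
    have h1 : a (n - (r + m) + i) = u n * a (s + m + (r - i)) := by
      have h2 := hgood n hn (r - i) (by omega)
      simp only [revMis, Set.mem_ofPred_eq, not_and, not_not] at h2
      have h3 := h2 (by omega)
      rw [add_assoc, ← h3]
      congr 1
      omega
    rw [h1, eval_mul, eval_C, eval_comp, eval_sub, eval_X, eval_C, Nat.cast_sub (by omega)]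
    ring
  have hQ0 := poly_zero Q D hdeg T hT hroot
  have h2 := congrArg (eval (y + ((r + m : ℕ) : K))) hQ0
  rw [hQ, eval_finsetSum, eval_zero] at h2
  rw [← h2]
  refine Finset.sum_congr rfl fun i _ => ?_
  rw [eval_mul, eval_C, eval_comp, eval_sub, eval_X, eval_C, add_sub_cancel_right, mul_comm]

/-- Direct words. -/
theorem dir_window (s N : ℕ) (T : Finset ℕ) (hT : D < T.card) (u : ℕ → K)
    (hu : ∀ n ∈ T, u n ≠ 0) (m : ℕ) (hm : m + r ≤ N)
    (hgood : ∀ n ∈ T, ∀ j ≤ r, m + j ∉ dirMis a s N n (u n)) (y : K) :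
    ∑ i ∈ Finset.range (r + 1), (p i).eval y * a (s + m + i) = 0 := by
  classical
  set Q : K[X] := ∑ i ∈ Finset.range (r + 1), C (a (s + m + i)) *
    (p i).comp (X + C ((m : ℕ) : K)) with hQ
  have hdeg : Q.natDegree ≤ D := by
    refine natDegree_sum_le_of_forall_le _ _ fun i _ => ?_
    refine (natDegree_C_mul_le _ _).trans (natDegree_comp_le.trans ?_)
    rw [natDegree_X_add_C, mul_one]
    exact hD i
  have hroot : ∀ n ∈ T, Q.eval (n : K) = 0 := by
    intro n hn
    have h := hrec (n + m)
    refine (mul_eq_zero.1 (?_ : u n * _ = 0)).resolve_left (hu n hn)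
    rw [hQ, eval_finsetSum, ← h, Finset.mul_sum]
    refine Finset.sum_congr rfl fun i hi => ?_
    have hi' : i < r + 1 := by simpa using hi
    have h1 : a (n + m + i) = u n * a (s + m + i) := by
      have h2 := hgood n hn i (by omega)
      simp only [dirMis, Set.mem_ofPred_eq, not_and, not_not] at h2
      have h3 := h2 (by omega)
      rw [add_assoc, add_assoc, ← h3]
    rw [h1, eval_mul, eval_C, eval_comp, eval_add, eval_X, eval_C]
    push_cast
    ring
  have hQ0 := poly_zero Q D hdeg T hT hroot
  have h2 := congrArg (eval (y - ((m : ℕ) : K))) hQ0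
  rw [hQ, eval_finsetSum, eval_zero] at h2
  rw [← h2]
  refine Finset.sum_congr rfl fun i _ => ?_
  rw [eval_mul, eval_C, eval_comp, eval_add, eval_X, eval_C, sub_add_cancel, mul_comm]

end

/-- If the coefficients of an algebraic power series vanish on a long enough interval far out, then it is a
polynomial. -/
theorem poly_of_gap {K : Type*} [Field K] [CharZero K] (g : PowerSeries K) (hg : IsAlgebraic K[X] g) :
    ∃ L M0 : ℕ, ∀ M ≥ M0, (∀ k, M ≤ k → k < M + L → PowerSeries.coeff k g = 0) →
      ∀ k ≥ M, PowerSeries.coeff k g = 0 := by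
  classical
  obtain ⟨P, hP, hPg⟩ := hg
  obtain ⟨r, p, ⟨i0, hi0, hpi0⟩, -, hrec⟩ := exists_rec g P hP hPg
  -- the largest index with a nonzero polynomial
  have hex : ∃ i, i ≤ r ∧ p i ≠ 0 := ⟨i0, hi0, hpi0⟩
  set l := Nat.findGreatest (fun i => p i ≠ 0) r with hl
  have hl1 : p l ≠ 0 := Nat.findGreatest_spec (P := fun i => p i ≠ 0) hi0 hpi0
  have hlr : l ≤ r := Nat.findGreatest_le r
  have hl2 : ∀ i, l < i → i ≤ r → p i = 0 := by
    intro i hi hir
    by_contra h
    exact Nat.findGreatest_is_greatest hi hir h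
  -- the integral roots of the leading coefficient
  have hfin : {n : ℕ | (p l).eval (n : K) = 0}.Finite := by
    have h1 : ((p l).rootSet K).Finite := rootSet_finite _ _
    refine Set.Finite.of_finite_image (f := fun n : ℕ => (n : K)) ?_ Nat.cast_injective.injOn
    refine ((p l).roots.toFinset.finite_toSet).subset ?_
    rintro _ ⟨n, hn, rfl⟩
    simp only [Finset.mem_coe, Multiset.mem_toFinset]
    exact (mem_roots hl1).2 hn
  obtain ⟨M0, hM0⟩ := hfin.bddAbove
  refine ⟨l, M0 + 1, fun M hM hgap k hk => ?_⟩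
  induction k using Nat.strong_induction_on with
  | _ k ih =>
    rcases lt_or_ge k (M + l) with hkl | hkl
    · exact hgap k hk hkl
    · have h := hrec (k - l)
      rw [Finset.sum_eq_single l] at h
      · rw [Nat.sub_add_cancel (by omega)] at h
        refine (mul_eq_zero.1 h).resolve_left fun h0 => ?_
        have := hM0 h0
        omega
      · intro i hi hil
        have hi' : i < r + 1 := by simpa using hi
        rcases lt_or_gt_of_ne hil with h1 | h1
        · rw [ih (k - l + i) (by omega) (by omega), mul_zero]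
        · rw [hl2 i h1 (by omega), eval_zero, zero_mul]
      · intro hl'
        exact absurd (Finset.mem_range.2 (by omega)) hl'

theorem rational_of_gap {K : Type*} [Field K] (f : PowerSeries K) (Q : K[X]) (hQ : Q ≠ 0) (M : ℕ)
    (h : ∀ k ≥ M, PowerSeries.coeff k ((Q : PowerSeries K) * f) = 0) :
    ∃ P Q : K[X], Q ≠ 0 ∧ (Q : PowerSeries K) * f = P := by
  refine ⟨PowerSeries.trunc M ((Q : PowerSeries K) * f), Q, hQ, ?_⟩
  ext n
  rw [Polynomial.coeff_coe, PowerSeries.coeff_trunc]
  split_ifs with hn
  · rfl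
  · exact h n (by omega)

theorem alg_mul {K : Type*} [Field K] (f : PowerSeries K) (hf : IsAlgebraic K[X] f) (Q : K[X]) :
    IsAlgebraic K[X] ((Q : PowerSeries K) * f) := by
  have : (Q : PowerSeries K) = algebraMap K[X] (PowerSeries K) Q := rfl
  rw [this]
  exact (isAlgebraic_algebraMap Q).mul hf

/-- The coefficients of a product with a polynomial given by a window. -/
theorem coeff_window {K : Type*} [Field K] (f : PowerSeries K) (r : ℕ) (c : ℕ → K) (m : ℕ) :
    PowerSeries.coeff (m + r) (((∑ i ∈ Finset.range (r + 1), C (c i) * X ^ i : K[X]) : PowerSeries K) * f) =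
      ∑ i ∈ Finset.range (r + 1), c i * PowerSeries.coeff (m + (r - i)) f := by
  classical
  have h1 : ((∑ i ∈ Finset.range (r + 1), C (c i) * X ^ i : K[X]) : PowerSeries K) =
      ∑ i ∈ Finset.range (r + 1), PowerSeries.C (c i) * PowerSeries.X ^ i := by
    rw [← alg_apply, map_sum]
    refine Finset.sum_congr rfl fun i _ => ?_
    rw [map_mul, map_pow, alg_apply, alg_apply, Polynomial.coe_C, Polynomial.coe_X]
  rw [h1, Finset.sum_mul, map_sum]
  refine Finset.sum_congr rfl fun i hi => ?_
  have hi' : i < r + 1 := by simpa using hi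
  rw [mul_assoc, PowerSeries.coeff_C_mul, PowerSeries.coeff_X_pow_mul', if_pos (by omega)]
  congr 2
  congr 1
  omega

end Pool.Agent.Pal
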