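import Pool.Agent.Pal.C1
import Pool.Agent.Pal.B1

/-!
# The function field model of the question on palindromic prefixes
-/

set_option autoImplicit false

open Polynomial

noncomputable section

namespace Pool.Agent.Pal

theorem card_arith (D N M1 W C b : ℕ) (hC : C = 2 * W * (D + 1)) (hb : C * b ≤ (D + 1) * N)
    (hW : 0 < W) (hN : 2 * M1 + 2 * W ≤ N) : b < (N + 1 - M1) / W := by
  have h1 : 2 * W * b ≤ N := by
    rw [hC] at hb
    have : (D + 1) * (2 * W * b) ≤ (D + 1) * N := by
      calc (D + 1) * (2 * W * b) = 2 * W * (D + 1) * b := by ring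
        _ ≤ _ := hb
    exact Nat.le_of_mul_le_mul_left this (Nat.succ_pos D)
  rw [Nat.lt_iff_add_one_le, Nat.le_div_iff_mul_le hW]
  have h2 : (b + 1) * W = W * b + W := by ring
  have h3 : 2 * (W * b) ≤ N := by
    calc 2 * (W * b) = 2 * W * b := by ring
      _ ≤ N := h1
  omega

/-- A finite set of positions is clean on a long interval. -/
theorem exists_clean (T : Finset ℕ) (B : ℕ → Set ℕ) (hB : ∀ n, (B n).Finite) (D N M1 L r C : ℕ)
    (hT : T.card = D + 1) (hC : C = 2 * (L + r + 1) * (D + 1)) (hcard : ∀ n ∈ T, C * (B n).ncard ≤ N)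
    (hN : 2 * M1 + 2 * (L + r + 1) ≤ N) :
    ∃ M, M1 ≤ M ∧ M + L + r ≤ N ∧ ∀ n ∈ T, ∀ x ∈ B n, ¬ (M ≤ x ∧ x ≤ M + L + r) := by
  classical
  set Bd : Finset ℕ := T.biUnion fun n => (hB n).toFinset with hBd
  have h1 : C * Bd.card ≤ (D + 1) * N := by
    calc C * Bd.card ≤ C * ∑ n ∈ T, ((hB n).toFinset).card := Nat.mul_le_mul_left _ Finset.card_biUnion_le
      _ = ∑ n ∈ T, C * (B n).ncard := by
          rw [Finset.mul_sum]
          refine Finset.sum_congr rfl fun n _ => ?_
          rw [Set.ncard_eq_toFinset_card _ (hB n)]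
      _ ≤ ∑ n ∈ T, N := Finset.sum_le_sum hcard
      _ = (D + 1) * N := by rw [Finset.sum_const, hT, smul_eq_mul]
  have h2 := card_arith D N M1 (L + r + 1) C Bd.card hC h1 (Nat.succ_pos _) hN
  obtain ⟨j, hj, hclean⟩ := exists_block Bd M1 (L + r + 1) _ h2
  have h3 : (j + 1) * (L + r + 1) ≤ N + 1 - M1 :=
    (Nat.mul_le_mul_right _ hj).trans (Nat.div_mul_le_self _ _)
  have h4 : (j + 1) * (L + r + 1) = j * (L + r + 1) + (L + r + 1) := by ring
  refine ⟨M1 + j * (L + r + 1), Nat.le_add_right _ _, by omega, fun n hn x hx hcon => ?_⟩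
  refine hclean x ?_ ⟨hcon.1, by omega⟩
  rw [hBd, Finset.mem_biUnion]
  exact ⟨n, hn, by simpa using hx⟩

variable {K : Type*} [Field K]

/-- The word `a 0, …, a n` is a palindrome. -/
def IsPal (f : PowerSeries K) (n : ℕ) : Prop :=
  ∀ k ≤ n, PowerSeries.coeff (n - k) f = PowerSeries.coeff k f

/-- The power series is a rational function. -/
def IsRat (f : PowerSeries K) : Prop := ∃ P Q : K[X], Q ≠ 0 ∧ (Q : PowerSeries K) * f = P

theorem nonrecurrence [CharZero K] (f : PowerSeries K) (P : K[X][X]) (hP : P ≠ 0)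
    (hPf : aeval f P = 0) (hirr : ¬ IsRat f) :
    ∃ C N0 : ℕ, 0 < C ∧ ∀ N ≥ N0, ∀ s : ℕ,
      {n : ℕ | N ≤ n ∧ ∃ c : K, c ≠ 0 ∧
        C * (revMis (fun k => PowerSeries.coeff k f) s N n c).ncard ≤ N}.encard ≤ P.natDegree ∧
      {n : ℕ | ∃ c : K, c ≠ 0 ∧
        C * (dirMis (fun k => PowerSeries.coeff k f) s N n c).ncard ≤ N}.encard ≤ P.natDegree := by
  classical
  have hf : IsAlgebraic K[X] f := ⟨P, hP, hPf⟩
  obtain ⟨r, p, ⟨i, hi, hpi⟩, hdeg, hrec⟩ := exists_rec f P hP hPf
  obtain ⟨y, hy⟩ : ∃ y : K, (p i).eval y ≠ 0 := by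
    by_contra hcon
    push Not at hcon
    exact hpi (Polynomial.funext fun x => by simpa using hcon x)
  -- the two polynomials
  have hne : ∀ c : ℕ → K, (∃ i ≤ r, c i ≠ 0) → (∑ i ∈ Finset.range (r + 1), C (c i) * X ^ i : K[X]) ≠ 0 := by
    rintro c ⟨i, hi, hci⟩ h0
    have := congrArg (fun q : K[X] => q.coeff i) h0
    simp only [finsetSum_coeff, coeff_C_mul, coeff_X_pow, mul_ite, mul_one, mul_zero, coeff_zero] at this
    rw [Finset.sum_ite_eq, if_pos (Finset.mem_range.2 (by omega))] at this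
    exact hci this
  set c1 : ℕ → K := fun i => (p i).eval y with hc1
  set c2 : ℕ → K := fun i => (p (r - i)).eval y with hc2
  set Q1 : K[X] := ∑ i ∈ Finset.range (r + 1), C (c1 i) * X ^ i with hQ1
  set Q2 : K[X] := ∑ i ∈ Finset.range (r + 1), C (c2 i) * X ^ i with hQ2
  have hQ1' : Q1 ≠ 0 := hne c1 ⟨i, hi, hy⟩
  have hQ2' : Q2 ≠ 0 := hne c2 ⟨r - i, Nat.sub_le _ _, by simpa [hc2, Nat.sub_sub_self hi] using hy⟩
  obtain ⟨L1, M1, hgap1⟩ := poly_of_gap _ (alg_mul f hf Q1)
  obtain ⟨L2, M2, hgap2⟩ := poly_of_gap _ (alg_mul f hf Q2)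
  set L := L1 + L2 with hL
  set M := M1 + M2 with hM
  set D := P.natDegree with hD
  refine ⟨2 * (L + r + 1) * (D + 1), 2 * M + 2 * (L + r + 1), by positivity, fun N hN s => ⟨?_, ?_⟩⟩
  · by_contra hcon
    rw [not_le] at hcon
    have hlt := Order.add_one_le_of_lt hcon
    obtain ⟨t, hts, htc0⟩ := Set.exists_subset_encard_eq hlt
    have htc : t.encard = ((D + 1 : ℕ) : ℕ∞) := by
      rw [htc0]
      push_cast
      rfl
    have htf : t.Finite := Set.finite_of_encard_eq_coe htc
    have htc' : htf.toFinset.card = D + 1 := by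
      rw [htf.encard_eq_coe_toFinset_card] at htc
      exact_mod_cast htc
    have hmem : ∀ n ∈ htf.toFinset, N ≤ n ∧ ∃ c : K, c ≠ 0 ∧ 2 * (L + r + 1) * (D + 1) *
        (revMis (fun k => PowerSeries.coeff k f) s N n c).ncard ≤ N := fun n hn =>
      hts (by simpa using hn)
    choose! u hu0 hu using fun n hn => (hmem n hn).2
    obtain ⟨Ms, hMs1, hMs2, hclean⟩ := exists_clean htf.toFinset
      (fun n => revMis (fun k => PowerSeries.coeff k f) s N n (u n)) (fun n => revMis_finite _ _ _ _ _)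
      D N M L r _ htc' rfl hu hN
    apply hirr
    refine rational_of_gap f Q1 hQ1' (s + Ms + r) (hgap1 (s + Ms + r) (by omega) fun k hk1 hk2 => ?_)
    obtain ⟨m, rfl⟩ : ∃ m, k = s + m + r := ⟨k - r - s, by omega⟩
    have h1 := rev_window (fun k => PowerSeries.coeff k f) r p D hdeg hrec s N htf.toFinset
      (by omega) (fun n hn => (hmem n hn).1) u hu0 m (by omega) (fun n hn j hj hx =>
        hclean n hn (m + j) hx ⟨by omega, by omega⟩) y
    rw [hQ1, coeff_window]
    exact h1
  · by_contra hcon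
    rw [not_le] at hcon
    have hlt := Order.add_one_le_of_lt hcon
    obtain ⟨t, hts, htc0⟩ := Set.exists_subset_encard_eq hlt
    have htc : t.encard = ((D + 1 : ℕ) : ℕ∞) := by
      rw [htc0]
      push_cast
      rfl
    have htf : t.Finite := Set.finite_of_encard_eq_coe htc
    have htc' : htf.toFinset.card = D + 1 := by
      rw [htf.encard_eq_coe_toFinset_card] at htc
      exact_mod_cast htc
    have hmem : ∀ n ∈ htf.toFinset, ∃ c : K, c ≠ 0 ∧ 2 * (L + r + 1) * (D + 1) *
        (dirMis (fun k => PowerSeries.coeff k f) s N n c).ncard ≤ N := fun n hn =>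
      hts (by simpa using hn)
    choose! u hu0 hu using hmem
    obtain ⟨Ms, hMs1, hMs2, hclean⟩ := exists_clean htf.toFinset
      (fun n => dirMis (fun k => PowerSeries.coeff k f) s N n (u n)) (fun n => dirMis_finite _ _ _ _ _)
      D N M L r _ htc' rfl hu hN
    apply hirr
    refine rational_of_gap f Q2 hQ2' (s + Ms + r) (hgap2 (s + Ms + r) (by omega) fun k hk1 hk2 => ?_)
    obtain ⟨m, rfl⟩ : ∃ m, k = s + m + r := ⟨k - r - s, by omega⟩
    have h1 := dir_window (fun k => PowerSeries.coeff k f) r p D hdeg hrec s N htf.toFinset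
      (by omega) u hu0 m (by omega) (fun n hn j hj hx =>
        hclean n hn (m + j) hx ⟨by omega, by omega⟩) y
    rw [hQ2, coeff_window, ← h1, ← Finset.sum_range_reflect]
    refine Finset.sum_congr rfl fun i hi => ?_
    have hi' : i < r + 1 := by simpa using hi
    have h2 : r + 1 - 1 - i = r - i := by omega
    have h3 : r - (r - i) = i := by omega
    rw [h2, h3, hc2]
    simp only [h3]

/-- The number of palindromic prefixes is finite. -/
theorem finite_pal [CharZero K] (f : PowerSeries K) (hf : IsAlgebraic K[X] f) (hirr : ¬ IsRat f) :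
    {n : ℕ | IsPal f n}.Finite := by
  obtain ⟨P, hP, hPf⟩ := hf
  obtain ⟨C, N0, hC, h⟩ := nonrecurrence f P hP hPf hirr
  have h1 := (h N0 le_rfl 0).1
  have h2 := Set.finite_of_encard_le_coe h1
  refine (h2.union (Set.finite_lt_nat N0)).subset fun n hn => ?_
  rcases lt_or_ge n N0 with hlt | hge
  · exact Or.inr hlt
  · refine Or.inl ⟨hge, 1, one_ne_zero, ?_⟩
    have h3 : revMis (fun k => PowerSeries.coeff k f) 0 N0 n (1 : K) = ∅ := by
      ext k
      simp only [revMis, Set.mem_ofPred_eq, one_mul, zero_add, Set.mem_empty_iff_false, iff_false,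
        not_and, not_not]
      intro hk
      exact hn k (hk.trans hge)
    rw [h3, Set.ncard_empty, mul_zero]
    exact Nat.zero_le _

/-- The function field model: the answer depends on the characteristic. -/
theorem model (K : Type*) [Field K] :
    (∀ f : PowerSeries K, IsAlgebraic K[X] f → ¬ IsRat f → {n : ℕ | IsPal f n}.Finite) ↔ CharZero K := by
  constructor
  · intro h
    by_contra hchar
    obtain ⟨p, hp⟩ := CharP.exists K
    rcases Nat.eq_zero_or_pos p with h0 | hpos
    · subst h0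
      exact hchar (CharP.charP_to_charZero K)
    · haveI : NeZero p := ⟨hpos.ne'⟩
      haveI : Fact p.Prime := CharP.char_is_prime_of_pos K p
      have h1 := h (ser K p) (ser_algebraic p) (fun ⟨P, Q, hQ, hPQ⟩ => ser_irrational p P Q hQ hPQ)
      have h4 := two_le p
      have h2 : Set.range (fun m : ℕ => (p ^ 2) ^ m - 1) ⊆ {n : ℕ | IsPal (ser K p) n} := by
        rintro _ ⟨m, rfl⟩
        exact fun k hk => ser_pal p m k hk
      have h3 : Function.Injective (fun m : ℕ => (p ^ 2) ^ m - 1) := by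
        intro m m' hmm
        have h5 : 0 < (p ^ 2) ^ m := pow_pos (by omega) _
        have h6 : 0 < (p ^ 2) ^ m' := pow_pos (by omega) _
        simp only at hmm
        exact Nat.pow_right_injective (by omega : 2 ≤ p ^ 2) (by simp only; omega)
      exact Set.infinite_range_of_injective h3 (h1.subset h2)
  · intro h f hf hirr
    exact finite_pal f hf hirr

end Pool.Agent.Pal
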